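import Pool.Agent.Lib.MP_f3b2fd_co.KEP.B.Trig
import Pool.Agent.Lib.MP_f3b2fd_co.KEP.N.Data
import Pool.Agent.Lib.MP_f3b2fd_co.KEP.A.Const

/-! The penalty of a triangle: statement, sums and budgets. -/

set_option autoImplicit false

namespace Pool.Agent.Lib.MP_f3b2fd_co.KT

open Real KEP KN KA

variable {hs : ℝ} {V : Type} [Fintype V] [DecidableEq V]

noncomputable section

/-- the loss at a vertex. -/
def y (t : Tri hs V) (v : V) : ℝ := 1 - ff (t.h v)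

/-- the penalty of a triangle. -/
def tau (t : Tri hs V) (a b c : V) : ℝ := t.tau (fun v => 1 + 21 / 200 * y t v) (3 * th0) a b c

/-- one eighth of the signed angle along the side `a b`. -/
def ph (t : Tri hs V) (a b c : V) : ℝ := phi (t.x a b) (t.x b c) (t.x c a) / 8

open Classical in
/-- the transfer across a marked side `a b`. -/
def G (t : Tri hs V) (γ : V → V → Prop) (a b c : V) : ℝ := if γ a b then ph t a b c else 0

/-- the total penalty, for `n` vertices with total loss `s`. -/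
def tot (n s : ℝ) : ℝ := 2 * π * (n + 21 / 200 * s) - (2 * n - 4) * (3 * th0)

end

/-- `γ` marks the long sides. -/
structure Mk (t : Tri hs V) (γ : V → V → Prop) : Prop where
  symm : ∀ a b, γ a b → γ b a
  le : ∀ a b, γ a b → t.x a b ≤ 1 / 8
  ge : ∀ a b, ¬γ a b → 1 / 8 ≤ t.x a b

/-- The two triangle inequalities. -/
def TauS (hs : ℝ) : Prop :=
  ∀ (V : Type) [Fintype V] [DecidableEq V] (t : Tri hs V) (a b c : V), (a, b, c) ∈ t.T →
    (∀ γ, Mk t γ → G t γ a b c + G t γ b c a + G t γ c a b ≤ tau t a b c) ∧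
      (y t a + y t b + y t c ≤ 21 / 20 → 0 ≤ tau t a b c)

variable (t : Tri hs V)

theorem tau_eq (a b c : V) : tau t a b c = (1 + 21 / 200 * y t a) * t.A a b c +
    (1 + 21 / 200 * y t b) * t.A b c a + (1 + 21 / 200 * y t c) * t.A c a b - 3 * th0 := rfl

theorem y_nonneg (h2 : hs ≤ 4 / 3) (v : V) : 0 ≤ y t v := by
  have := ff_slope h2 _ (t.h_lo v) (t.h_hi v)
  have := t.h_lo v
  unfold y
  linarith

theorem sum_tau : ∑ s ∈ t.T, tau t s.1 s.2.1 s.2.2 = 3 * tot (Fintype.card V) (∑ v, y t v) := by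
  unfold tau tot
  rw [t.sum_tau, Finset.sum_add_distrib, ← Finset.mul_sum, Finset.sum_const, nsmul_eq_mul, mul_one,
    Finset.card_univ]

theorem tot_mono (n : ℝ) {s s' : ℝ} (h : s ≤ s') : tot n s ≤ tot n s' := by
  unfold tot
  nlinarith [pi_pos]

theorem ph_eq {a b c : V} (h : (a, b, c) ∈ t.T) :
    ph t a b c = (t.A a b c + t.A b c a - t.A c a b) / 16 := by
  rw [ph, ← t.two_phi h]
  ring

theorem mk_lt : Mk t fun a b => t.x a b < 1 / 8 :=
  ⟨fun a b h => t.x_symm a b ▸ h, fun _ _ h => h.le, fun _ _ h => not_lt.1 h⟩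

variable {γ : V → V → Prop}

theorem G_del (hγ : Mk t γ) {a b c d : V} (h : (a, b, c) ∈ t.T) (h' : (b, a, d) ∈ t.T) :
    0 ≤ G t γ a b c + G t γ b a d := by
  have := t.del a b c d h h'
  unfold G ph
  by_cases k : γ a b
  · rw [if_pos k, if_pos (hγ.symm _ _ k)]
    linarith
  · rw [if_neg k, if_neg fun e => k (hγ.symm _ _ e), add_zero]

/-- The transfers over a set of darts that is closed under reversal. -/
theorem sum_G (hγ : Mk t γ) (W : Finset (V × V × V)) (hW : W ⊆ t.T)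
    (hr : ∀ a b c, (a, b, c) ∈ W → ∃ d, (b, a, d) ∈ W) : 0 ≤ ∑ s ∈ W, G t γ s.1 s.2.1 s.2.2 := by
  choose! N hN using hr
  have e : ∑ s ∈ W, G t γ s.2.1 s.1 (N s.1 s.2.1 s.2.2) = ∑ s ∈ W, G t γ s.1 s.2.1 s.2.2 := by
    have k : ∀ s ∈ W, N s.2.1 s.1 (N s.1 s.2.1 s.2.2) = s.2.2 := fun s h =>
      t.uniq _ _ _ _ (hW (hN _ _ _ (hN _ _ _ h))) (hW h)
    exact Finset.sum_nbij' (fun s => (s.2.1, s.1, N s.1 s.2.1 s.2.2))
      (fun s => (s.2.1, s.1, N s.1 s.2.1 s.2.2)) (fun s h => hN _ _ _ h) (fun s h => hN _ _ _ h)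
      (fun s h => by simp only [k s h]) (fun s h => by simp only [k s h]) (fun _ _ => rfl)
  have := Finset.sum_nonneg (s := W) (f := fun s => G t γ s.1 s.2.1 s.2.2 +
    G t γ s.2.1 s.1 (N s.1 s.2.1 s.2.2)) fun s h => G_del t hγ (hW h) (hW (hN _ _ _ h))
  rw [Finset.sum_add_distrib, e] at this
  linarith

omit [Fintype V] [DecidableEq V] in
theorem sum_rot {U : Finset (V × V × V)} (hU : ∀ a b c, (a, b, c) ∈ U → (b, c, a) ∈ U)
    (F : V × V × V → ℝ) : ∑ s ∈ U, F (s.2.1, s.2.2, s.1) = ∑ s ∈ U, F s :=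
  Finset.sum_nbij' (fun s => (s.2.1, s.2.2, s.1)) (fun s => (s.2.2, s.1, s.2.1))
    (fun _ h => hU _ _ _ h) (fun _ h => hU _ _ _ (hU _ _ _ h))
    (fun _ _ => rfl) (fun _ _ => rfl) (fun _ _ => rfl)

/-- Over a union of triangles the penalty pays for the transfers. -/
theorem TauS.sum (H : TauS hs) (hγ : Mk t γ) {U : Finset (V × V × V)} (hT : U ⊆ t.T)
    (hU : ∀ a b c, (a, b, c) ∈ U → (b, c, a) ∈ U) :
    3 * ∑ s ∈ U, G t γ s.1 s.2.1 s.2.2 ≤ ∑ s ∈ U, tau t s.1 s.2.1 s.2.2 := by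
  have h1 := sum_rot hU fun s => G t γ s.1 s.2.1 s.2.2
  have h2 := sum_rot hU fun s => G t γ s.2.1 s.2.2 s.1
  have h3 := Finset.sum_le_sum (s := U) fun s h => (H V t s.1 s.2.1 s.2.2 (hT h)).1 γ hγ
  simp only [Finset.sum_add_distrib] at h1 h2 h3
  linarith

/-- The budget of a union `U` of triangles; `B` holds the long darts on the boundary of `U`. -/
theorem TauS.budget (H : TauS hs) {U B : Finset (V × V × V)} (hT : U ⊆ t.T)
    (hU : ∀ a b c, (a, b, c) ∈ U → (b, c, a) ∈ U)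
    (hB : ∀ a b c, (a, b, c) ∈ B → (a, b, c) ∈ U ∧ (∀ d, (b, a, d) ∉ U) ∧ t.x a b ≤ 1 / 8)
    (hC : ∀ a b c, (a, b, c) ∈ U → (∀ d, (b, a, d) ∉ U) → (a, b, c) ∉ B → 1 / 8 ≤ t.x a b) :
    ∑ s ∈ U, tau t s.1 s.2.1 s.2.2 - 3 * ∑ s ∈ B, ph t s.1 s.2.1 s.2.2 ≤
      3 * tot (Fintype.card V) (∑ v, y t v) := by
  classical
  set γ : V → V → Prop := fun a b => (∃ c, (a, b, c) ∈ B ∨ (b, a, c) ∈ B) ∨ t.x a b < 1 / 8
  have hγ : Mk t γ := ⟨fun a b h => h.imp (fun k => k.imp fun _ => Or.symm) fun k => t.x_symm a b ▸ k,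
    fun a b h => h.elim (fun ⟨c, k⟩ => k.elim (fun m => (hB _ _ _ m).2.2)
      fun m => t.x_symm a b ▸ (hB _ _ _ m).2.2) le_of_lt, fun a b h => not_lt.1 fun k => h (Or.inr k)⟩
  set D := U.filter fun s => ∀ d, (s.2.1, s.1, d) ∉ U
  have hD : ∀ a b c, (a, b, c) ∈ D ↔ (a, b, c) ∈ U ∧ ∀ d, (b, a, d) ∉ U := fun a b c =>
    Finset.mem_filter
  have h0 : ∑ s ∈ B, ph t s.1 s.2.1 s.2.2 = ∑ s ∈ D, G t γ s.1 s.2.1 s.2.2 := by
    rw [← Finset.sum_subset (s₁ := B) (s₂ := D)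
      (fun s h => (hD s.1 s.2.1 s.2.2).2 ⟨(hB _ _ _ h).1, (hB _ _ _ h).2.1⟩) fun s h k => ?_]
    · exact Finset.sum_congr rfl fun s h => (if_pos (Or.inl ⟨s.2.2, Or.inl h⟩)).symm
    · obtain ⟨k1, k2⟩ := (hD s.1 s.2.1 s.2.2).1 h
      refine if_neg ?_
      rintro (⟨c, m | m⟩ | m)
      · exact k (t.uniq _ _ _ _ (hT (hB _ _ _ m).1) (hT k1) ▸ m :)
      · exact k2 c (hB _ _ _ m).1
      · exact m.not_ge (hC _ _ _ k1 k2 k)
  have h1 := H.sum t hγ (U := t.T \ U) Finset.sdiff_subset fun a b c h => by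
    rw [Finset.mem_sdiff] at h ⊢
    exact ⟨t.rot _ _ _ h.1, fun k => h.2 (hU _ _ _ (hU _ _ _ k))⟩
  have hd : Disjoint (t.T \ U) D := Finset.disjoint_left.2 fun s h k =>
    (Finset.mem_sdiff.1 h).2 ((hD s.1 s.2.1 s.2.2).1 k).1
  have h2 := sum_G t hγ ((t.T \ U) ∪ D) (fun s h => (Finset.mem_union.1 h).elim
    (fun k => (Finset.mem_sdiff.1 k).1) fun k => hT ((hD s.1 s.2.1 s.2.2).1 k).1) fun a b c h => by
    rcases Finset.mem_union.1 h with k | k
    · rw [Finset.mem_sdiff] at k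
      obtain ⟨d, -, hd⟩ := t.nbr _ _ _ k.1
      refine ⟨d, Finset.mem_union.2 ?_⟩
      by_cases m : (b, a, d) ∈ U
      · exact Or.inr ((hD _ _ _).2 ⟨m, fun e q => k.2 (t.uniq _ _ _ _ (hT q) k.1 ▸ q)⟩)
      · exact Or.inl (Finset.mem_sdiff.2 ⟨hd, m⟩)
    · obtain ⟨k1, k2⟩ := (hD _ _ _).1 k
      obtain ⟨d, -, hd⟩ := t.nbr _ _ _ (hT k1)
      exact ⟨d, Finset.mem_union.2 (Or.inl (Finset.mem_sdiff.2 ⟨hd, k2 d⟩))⟩
  rw [Finset.sum_union hd] at h2
  have h3 := Finset.sum_sdiff (f := fun s => tau t s.1 s.2.1 s.2.2) hT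
  rw [← sum_tau, ← h3, h0]
  linarith

/-- With total loss at most `21 / 20` no transfer is needed. -/
theorem TauS.nonneg (H : TauS hs) (h2 : hs ≤ 4 / 3) (h : ∑ v, y t v ≤ 21 / 20) {a b c : V}
    (m : (a, b, c) ∈ t.T) : 0 ≤ tau t a b c := by
  refine (H V t a b c m).2 (le_trans ?_ h)
  obtain ⟨n1, n2, n3⟩ := t.ne _ _ _ m
  have := Finset.sum_le_sum_of_subset_of_nonneg (f := y t) (Finset.subset_univ {a, b, c})
    fun v _ _ => y_nonneg t h2 v
  rw [Finset.sum_insert (by simp [n1, n3.symm]), Finset.sum_pair n2] at this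
  linarith

theorem TauS.budget0 (H : TauS hs) (h2 : hs ≤ 4 / 3) (h : ∑ v, y t v ≤ 21 / 20)
    {U : Finset (V × V × V)} (hT : U ⊆ t.T) :
    ∑ s ∈ U, tau t s.1 s.2.1 s.2.2 ≤ 3 * tot (Fintype.card V) (∑ v, y t v) := by
  rw [← sum_tau]
  exact Finset.sum_le_sum_of_subset_of_nonneg hT fun s m _ => H.nonneg t h2 h m

theorem TauS.tot_nonneg (H : TauS hs) : 0 ≤ tot (Fintype.card V) (∑ v, y t v) := by
  have h1 := H.sum t (mk_lt t) subset_rfl t.rot
  have h2 := sum_G t (mk_lt t) t.T subset_rfl fun a b c h => (t.nbr a b c h).imp fun _ k => k.2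
  rw [sum_tau] at h1
  linarith

/-- At most fifteen points. -/
theorem TauS.card_le (H : TauS hs) (h : ∑ v, (1 - ff (t.h v)) < Fintype.card V - 12 + 1 / 4) :
    Fintype.card V ≤ 15 := by
  by_contra hc
  have k : (16 : ℝ) ≤ Fintype.card V := by exact_mod_cast not_le.1 hc
  have := (H.tot_nonneg t).trans (tot_mono _ h.le)
  unfold tot at this
  nlinarith [pi_lt_d4, pi_pos, th0_lo]

/-- The range of the cosine of an edge. -/
theorem range (h1 : 425 / 256 ≤ hs ^ 2) (h2 : hs ≤ 129 / 100) {a b c : V} (m : (a, b, c) ∈ t.T) :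
    -87 / 512 ≤ t.x a b ∧ t.x a b ≤ 7 / 10 := by
  constructor
  · have r := t.rad _ _ _ m
    have g := t.gram_pos _ _ _ m
    have p := sub_pos.2 (t.x_lt m)
    have q := mul_pos (sub_pos.2 (t.x_lt (t.rot _ _ _ m)))
      (sub_pos.2 (t.x_lt (t.rot _ _ _ (t.rot _ _ _ m))))
    have e : gram (t.x a b) (t.x b c) (t.x c a) = cof (t.x a b) (t.x b c) (t.x c a) -
      2 * ((1 - t.x a b) * ((1 - t.x b c) * (1 - t.x c a))) := by unfold gram cof; ring
    have f : cof (t.x a b) (t.x b c) (t.x c a) ≤ 4 * ((1 - t.x b c) * (1 - t.x c a)) := by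
      unfold cof
      nlinarith [sq_nonneg (1 + t.x a b - t.x b c - t.x c a)]
    have pq := mul_pos p q
    have := mul_le_mul_of_nonneg_right h1 (by linarith : 0 ≤ cof (t.x a b) (t.x b c) (t.x c a))
    by_contra hc
    nlinarith [mul_pos (sub_pos.2 (not_le.1 hc)) q]
  · have s := t.sep a b (t.ne _ _ _ m).1
    have a1 := t.h_lo a
    have a2 := (t.h_hi a).trans h2
    have b1 := t.h_lo b
    have b2 := (t.h_hi b).trans h2
    by_contra hc
    have := mul_pos (sub_pos.2 (not_le.1 hc)) (mul_pos (by linarith : 0 < t.h a) (by linarith : 0 < t.h b))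
    nlinarith [mul_nonneg (sub_nonneg.2 a1) (sub_nonneg.2 a2), mul_nonneg (sub_nonneg.2 b1) (sub_nonneg.2 b2),
      mul_nonneg (sub_nonneg.2 a2) (sub_nonneg.2 b2), mul_nonneg (sub_nonneg.2 a1) (sub_nonneg.2 b1),
      mul_nonneg (sub_nonneg.2 a1) (sub_nonneg.2 b2), mul_nonneg (sub_nonneg.2 a2) (sub_nonneg.2 b1)]

end Pool.Agent.Lib.MP_f3b2fd_co.KT
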