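import Pool.Agent.Lib.MP_f3b2fd_co.KEP.B.Tau.Real

/-! The corner test in integers, scale `2 ^ 20`. -/

set_option autoImplicit false

namespace Pool.Agent.Lib.MP_f3b2fd_co.KT

open Real Set KEP KA

/-- evaluate a number before continuing. -/
noncomputable def frc {α : Type} (v : ℕ) (k : ℕ → α) : α :=
  Nat.rec (motive := fun _ => α) (k 0) (fun m _ => k m) (Nat.add v 1)

theorem frc_eq {α : Type} (v : ℕ) (k : ℕ → α) : frc v k = k v := (rfl)

noncomputable section

def s7 (a b : ℕ) : ℕ :=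
  frc ((a.mul 1048576).div b) fun u => frc (u.mul u) fun v => frc (v.mul v) fun w =>
    (u.mul (((w.mul 23089744183296).add 139568939557416166654899741329436180480).sub
      ((v.mul 42312403686512021114716160).add ((w.mul v).mul 15)))).div
      139568939557416166654899741329436180480

def s9 (a b : ℕ) : ℕ :=
  frc ((a.mul 1048576).div b).succ fun u => frc (u.mul u) fun v => frc (v.mul v) fun w =>
    ((u.mul ((((w.mul 76162326635721638006489088).add ((w.mul w).mul 35)).add
      460373015759234419234160722305629151191618751037440).sub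
      ((v.mul 139568939557416166654899741329436180480).add ((w.mul v).mul 49478023249920)))).div
      460373015759234419234160722305629151191618751037440).succ

def atl (a b : ℕ) : ℕ :=
  Bool.rec (Bool.rec (Nat.sub 823549 (s9 (b.sub a) (a.add b))) (s7 a b) ((a.mul 12).ble (b.mul 5)))
    (Nat.add 823549 (s7 (a.sub b) (a.add b))) (b.ble a)

def ath (a b : ℕ) : ℕ :=
  Bool.rec (Bool.rec (Nat.sub 823550 (s7 (b.sub a) (a.add b))) (s9 a b) ((a.mul 12).ble (b.mul 5)))
    (Nat.add 823550 (s9 (a.sub b) (a.add b))) (b.ble a)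

def phl (a b l u : ℕ) : ℕ :=
  Bool.rec (Nat.sub 2097152 (frc (b.sub a) fun d => ath d l))
    (Nat.add 2097152 (frc (a.sub b) fun d => atl d u)) (b.ble a)

def nw (n x : ℕ) : ℕ := (x.add (n.div x)).div 2

def cnd (A B C Q R : ℕ) : Bool :=
  ((B.mul ((Q.mul 12).add 4194304)).add (C.mul ((R.mul 12).add 4194304))).ble
    ((A.mul 7340032).add (((B.mul R).add (C.mul Q)).mul 16))

def gn (P Q R : ℕ) : ℕ :=
  (((((P.mul Q).add (Q.mul R)).add (R.mul P)).mul 2097152).sub
    (((((P.mul P).add (Q.mul Q)).add (R.mul R)).mul 1048576).add (((P.mul Q).mul R).mul 2))).div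
    1048576

def cor (A B C P Q R : ℕ) : Bool :=
  frc (gn P Q R) fun n => frc (nw n 629146) fun x => frc (nw n x) fun x => frc (nw n x) fun x =>
    frc (nw n x) fun x => frc (nw n x).succ fun u => frc (n.div u) fun l =>
      (n.succ.ble (u.mul u) && Nat.ble 1 l) && ((cnd A B C Q R && cnd B A C P R) && cnd C A B P Q) &&
      ((((A.add B).add C).mul 4194304).add 4060362578060).ble
        ((((B.add C).mul (phl (Q.add R) P l u)).add ((C.add A).mul (phl (R.add P) Q l u))).add
          ((A.add B).mul (phl (P.add Q) R l u)))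

/-- the cosine with defect `P`. -/
def xr (P : ℕ) : ℝ := 1 - P / 1048576

end

theorem div_eq' (a b : ℕ) : a.div b = a / b := (rfl)

theorem add_eq' (a b : ℕ) : a.add b = a + b := (rfl)

theorem mul_eq' (a b : ℕ) : a.mul b = a * b := (rfl)

theorem sub_eq' (a b : ℕ) : a.sub b = a - b := (rfl)

theorem sub_le' {a b : ℕ} {x : ℝ} (h0 : 0 ≤ x) (h : (a : ℝ) - b ≤ x) : ((a - b : ℕ) : ℝ) ≤ x := by
  rcases le_total b a with k | k
  · rwa [Nat.cast_sub k]
  · rwa [Nat.sub_eq_zero_of_le k, Nat.cast_zero]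

theorem le_sub' (a b : ℕ) : (a : ℝ) - b ≤ ((a - b : ℕ) : ℝ) := by
  have : (a : ℝ) ≤ ((a - b + b : ℕ) : ℝ) := by exact_mod_cast le_tsub_add
  push_cast at this
  linarith

theorem le_div' (a : ℕ) {b : ℕ} (h : 0 < b) : (a : ℝ) / b ≤ ((a / b).succ : ℕ) := by
  have : (a : ℝ) < ((b * (a / b + 1) : ℕ) : ℝ) := by exact_mod_cast Nat.lt_mul_div_succ a h
  rw [div_le_iff₀ (by positivity)]
  push_cast at this ⊢
  linarith

theorem s7_le (a b : ℕ) : (s7 a b : ℝ) ≤ 1048576 * arctan (a / b) := by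
  simp only [s7, frc_eq, div_eq', add_eq', mul_eq', sub_eq']
  generalize hu : a * 1048576 / b = u
  have h1 : (u : ℝ) / 1048576 ≤ a / b := by
    have : (u : ℝ) ≤ ((a * 1048576 : ℕ) : ℝ) / b := hu ▸ Nat.cast_div_le
    push_cast at this
    rw [mul_div_right_comm] at this
    linarith
  have h2 := (atan_ge (by positivity)).trans (arctan_strictMono.monotone h1)
  have h3 : 0 ≤ arctan ((a : ℝ) / b) := arctan_nonneg.2 (by positivity)
  refine Nat.cast_div_le.trans ?_
  rw [div_le_iff₀ (by positivity), Nat.mul_sub]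
  refine sub_le' (by positivity) ?_
  push_cast
  linarith

theorem le_s9 (a : ℕ) {b : ℕ} (hb : 0 < b) : 1048576 * arctan (a / b) ≤ (s9 a b : ℝ) := by
  simp only [s9, frc_eq, div_eq', add_eq', mul_eq', sub_eq']
  have h0 := le_div' (a * 1048576) hb
  generalize (a * 1048576 / b).succ = u at *
  have h1 : (a : ℝ) / b ≤ u / 1048576 := by
    push_cast at h0
    rw [mul_div_right_comm] at h0
    linarith
  have h2 := (arctan_strictMono.monotone h1).trans (atan_le (by positivity))
  refine le_trans ?_ (le_div' _ (by norm_num))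
  rw [le_div_iff₀ (by positivity), Nat.mul_sub]
  refine le_trans ?_ (le_sub' _ _)
  push_cast
  linarith

theorem le_of_ble {a b : ℕ} (h : b.ble a = false) : a ≤ b :=
  le_of_not_ge fun k => by simp [Nat.ble_eq_true_of_le k] at h

theorem rot_nat {a b : ℕ} (hb : 0 < b) :
    (b ≤ a → arctan (a / b : ℝ) = π / 4 + arctan ((a - b : ℕ) / (a + b : ℕ))) ∧
      (a ≤ b → arctan (a / b : ℝ) = π / 4 - arctan ((b - a : ℕ) / (a + b : ℕ))) := by
  have h := atan_rot (a := a) (b := b) (by positivity) (by positivity)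
  constructor <;> intro k <;> rw [h, Nat.cast_sub k, Nat.cast_add]
  rw [← neg_sub (b : ℝ), neg_div, arctan_neg]
  ring

theorem atl_le (a : ℕ) {b : ℕ} (hb : 0 < b) : (atl a b : ℝ) ≤ 1048576 * arctan (a / b) := by
  have hp := pi_gt_d20
  unfold atl
  cases h : b.ble a
  · cases (a.mul 12).ble (b.mul 5)
    · have k := (rot_nat hb).2 (le_of_ble h)
      have := le_s9 (b - a) (b := a + b) (by omega)
      have h3 : 0 ≤ arctan ((a : ℝ) / b) := arctan_nonneg.2 (by positivity)
      refine sub_le' (by positivity) ?_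
      simp only [add_eq', sub_eq', Nat.cast_ofNat]
      linarith
    · exact s7_le a b
  · have k := (rot_nat hb).1 (Nat.le_of_ble_eq_true h)
    have := s7_le (a - b) (a + b)
    simp only [add_eq', sub_eq', Nat.cast_add (823549 : ℕ), Nat.cast_ofNat]
    linarith

theorem le_ath (a : ℕ) {b : ℕ} (hb : 0 < b) : 1048576 * arctan (a / b) ≤ (ath a b : ℝ) := by
  have hp := pi_lt_d20
  unfold ath
  cases h : b.ble a
  · cases (a.mul 12).ble (b.mul 5)
    · have k := (rot_nat hb).2 (le_of_ble h)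
      have := s7_le (b - a) (a + b)
      refine le_trans ?_ (le_sub' _ _)
      simp only [add_eq', sub_eq', Nat.cast_ofNat]
      linarith
    · exact le_s9 a hb
  · have k := (rot_nat hb).1 (Nat.le_of_ble_eq_true h)
    have := le_s9 (a - b) (b := a + b) (by omega)
    simp only [add_eq', sub_eq', Nat.cast_add (823550 : ℕ), Nat.cast_ofNat]
    linarith

theorem phl_le (a b : ℕ) {l u : ℕ} {s : ℝ} (h0 : 0 < l) (h1 : (l : ℝ) ≤ s) (h2 : s ≤ u) :
    (phl a b l u : ℝ) ≤ 1048576 * (arctan ((a - b) / s) + 2) := by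
  have l0 : (0 : ℝ) < l := by positivity
  unfold phl
  cases h : b.ble a
  · have k : a ≤ b := (le_of_ble h)
    have k1 := le_ath (b - a) h0
    have k2 : arctan (((b - a : ℕ) : ℝ) / s) ≤ arctan ((b - a : ℕ) / l) :=
      arctan_strictMono.monotone (div_le_div_of_nonneg_left (by positivity) l0 h1)
    rw [← neg_sub (b : ℝ), neg_div, arctan_neg, ← Nat.cast_sub k]
    refine sub_le' (by linarith [arctan_lt_pi_div_two (((b - a : ℕ) : ℝ) / s), pi_lt_four]) ?_
    simp only [frc_eq, sub_eq', Nat.cast_ofNat]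
    linarith
  · have k1 := atl_le (a - b) (b := u) (by exact_mod_cast l0.trans_le (h1.trans h2))
    have k2 : arctan (((a - b : ℕ) : ℝ) / u) ≤ arctan ((a - b : ℕ) / s) :=
      arctan_strictMono.monotone (div_le_div_of_nonneg_left (by positivity) (l0.trans_le h1) h2)
    rw [← Nat.cast_sub (Nat.le_of_ble_eq_true h)]
    simp only [frc_eq, add_eq', sub_eq', Nat.cast_add, Nat.cast_ofNat]
    linarith

theorem cnd_ok {A B C Q R : ℕ} (h : cnd A B C Q R = true) :
    nn (A / 1048576) (B / 1048576) (C / 1048576) (3 / 4) (xr Q) (xr R) ≤ 0 := by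
  have k := (Nat.cast_le (α := ℝ)).2 (Nat.le_of_ble_eq_true h)
  simp only [add_eq', mul_eq'] at k
  push_cast at k
  unfold nn xr
  linarith

theorem gn_ok {P Q R u : ℕ} (h1 : gn P Q R < u * u) (h2 : 0 < gn P Q R / u) :
    0 < gram (xr P) (xr Q) (xr R) ∧
      ((gn P Q R / u : ℕ) : ℝ) ≤ 1048576 * √(gram (xr P) (xr Q) (xr R)) ∧
      1048576 * √(gram (xr P) (xr Q) (xr R)) ≤ u := by
  obtain ⟨u0, n0⟩ := Nat.div_pos_iff.1 h2
  have n1 := u0.trans_le n0
  have e : ∃ G : ℕ, gn P Q R = G / 1048576 ∧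
      (0 < G → (G : ℝ) = 1048576 ^ 3 * gram (xr P) (xr Q) (xr R)) := by
    refine ⟨_, rfl, fun k => ?_⟩
    simp only [add_eq', mul_eq', sub_eq'] at k ⊢
    rw [Nat.cast_sub (Nat.sub_pos_iff_lt.1 k).le]
    unfold gram xr
    push_cast
    ring
  obtain ⟨G, e, hG⟩ := e
  rw [e] at h1 n1 ⊢
  have G0 : 0 < G := by omega
  have hG := hG G0
  have g0 : 0 < gram (xr P) (xr Q) (xr R) := by
    have : (0 : ℝ) < G := by positivity
    linarith
  have s := sq_sqrt g0.le
  have s0 := sqrt_pos.2 g0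
  have a1 : (G : ℝ) ≤ 1048576 * (u * u) := by
    have : G ≤ 1048576 * (u * u) := by omega
    exact_mod_cast this
  have a2 : 1048576 * √(gram (xr P) (xr Q) (xr R)) ≤ u :=
    le_of_sq_le_sq (by linarith) (by positivity)
  refine ⟨g0, Nat.cast_div_le.trans ?_, a2⟩
  have a3 : ((G / 1048576 : ℕ) : ℝ) ≤ G / (1048576 : ℕ) := Nat.cast_div_le
  rw [div_le_iff₀ (by positivity)]
  push_cast at a3
  nlinarith [mul_le_mul_of_nonneg_left a2 s0.le]

theorem cor_ok {A B C P Q R : ℕ} (hP : 0 < P) (hQ : 0 < Q) (hR : 0 < R)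
    (h : cor A B C P Q R = true) :
    Ok (3 * th0) (A / 1048576) (B / 1048576) (C / 1048576) (xr P) (xr Q) (xr R) := by
  simp only [cor, frc_eq, Bool.and_eq_true, Nat.ble_eq, div_eq'] at h
  generalize Nat.succ (nw _ _) = u at h
  obtain ⟨⟨⟨h1, h2⟩, ⟨c0, c1⟩, c2⟩, h3⟩ := h
  obtain ⟨g, a, b⟩ := gn_ok h1 h2
  refine ⟨g, cnd_ok c0, cnd_ok c1, cnd_ok c2, ?_⟩
  have lt : ∀ {P : ℕ}, 0 < P → xr P < 1 := fun h => sub_lt_self _ (by positivity)
  have e : ∀ X Y Z : ℕ, (1 + xr X - xr Y - xr Z) / √(gram (xr P) (xr Q) (xr R)) =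
      ((Y + Z : ℕ) - X) / (1048576 * √(gram (xr P) (xr Q) (xr R))) := fun X Y Z => by
    rw [← div_div]
    unfold xr
    push_cast
    ring
  rw [lin_phi _ _ _ g (lt hP) (lt hQ) (lt hR), e, e, e]
  have k0 := mul_le_mul_of_nonneg_left (phl_le (Q + R) P h2 a b) (by positivity : (0 : ℝ) ≤ B + C)
  have k1 := mul_le_mul_of_nonneg_left (phl_le (R + P) Q h2 a b) (by positivity : (0 : ℝ) ≤ C + A)
  have k2 := mul_le_mul_of_nonneg_left (phl_le (P + Q) R h2 a b) (by positivity : (0 : ℝ) ≤ A + B)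
  have k := (Nat.cast_le (α := ℝ)).2 h3
  simp only [add_eq', mul_eq'] at k
  generalize phl (Q + R) P _ u = f0, phl (R + P) Q _ u = f1, phl (P + Q) R _ u = f2 at k k0 k1 k2
  push_cast at k
  linarith [th0_hi]

end Pool.Agent.Lib.MP_f3b2fd_co.KT
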