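import Pool.Agent.Lib.MP_f3b2fd_co.KEP.B.Curv
import Pool.Agent.Lib.MP_f3b2fd_co.KEP.N.Data
import Pool.Agent.Lib.MP_f3b2fd_co.KEP.A.Const

/-! Weighted angle sums on boxes. -/

set_option autoImplicit false

namespace Pool.Agent.Lib.MP_f3b2fd_co.KT

open Real Set KEP KA

theorem le_of_deriv {f g : ℝ → ℝ} {l u : ℝ} (h : l ≤ u) (hd : ∀ t ∈ Icc l u, HasDerivAt f (g t) t)
    (hg : ∀ t ∈ Icc l u, 0 ≤ g t) : f l ≤ f u :=
  monotoneOn_of_deriv_nonneg (convex_Icc l u)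
    (fun t ht => (hd t ht).continuousAt.continuousWithinAt)
    (fun t ht => (hd t (interior_subset ht)).differentiableAt.differentiableWithinAt)
    (fun t ht => by rw [(hd t (interior_subset ht)).deriv]; exact hg t (interior_subset ht))
    (left_mem_Icc.2 h) (right_mem_Icc.2 h) h

theorem atan_ge {x : ℝ} (h : 0 ≤ x) : x - x ^ 3 / 3 + x ^ 5 / 5 - x ^ 7 / 7 ≤ arctan x := by
  have := le_of_deriv (f := fun t => arctan t - (t - t ^ 3 / 3 + t ^ 5 / 5 - t ^ 7 / 7))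
    (g := fun t => t ^ 8 / (1 + t ^ 2)) h (fun t _ => ((hasDerivAt_arctan t).fun_sub
      ((((hasDerivAt_id' t).fun_sub ((hasDerivAt_pow 3 t).div_const 3)).fun_add
        ((hasDerivAt_pow 5 t).div_const 5)).fun_sub ((hasDerivAt_pow 7 t).div_const 7))).congr_deriv
        (by push_cast; field_simp; ring)) fun t _ => by positivity
  simp only [arctan_zero] at this
  linarith

theorem atan_le {x : ℝ} (h : 0 ≤ x) :
    arctan x ≤ x - x ^ 3 / 3 + x ^ 5 / 5 - x ^ 7 / 7 + x ^ 9 / 9 := by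
  have := le_of_deriv (f := fun t => t - t ^ 3 / 3 + t ^ 5 / 5 - t ^ 7 / 7 + t ^ 9 / 9 - arctan t)
    (g := fun t => t ^ 10 / (1 + t ^ 2)) h (fun t _ =>
      ((((((hasDerivAt_id' t).fun_sub ((hasDerivAt_pow 3 t).div_const 3)).fun_add
        ((hasDerivAt_pow 5 t).div_const 5)).fun_sub ((hasDerivAt_pow 7 t).div_const 7)).fun_add
        ((hasDerivAt_pow 9 t).div_const 9)).fun_sub (hasDerivAt_arctan t)).congr_deriv
        (by push_cast; field_simp; ring)) fun t _ => by positivity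
  simp only [arctan_zero] at this
  linarith

theorem atan_rot {a b : ℝ} (ha : 0 ≤ a) (hb : 0 < b) :
    arctan (a / b) = π / 4 + arctan ((a - b) / (a + b)) := by
  have h : 0 < a + b := by linarith
  rw [← arctan_one, arctan_add (by rw [one_mul, div_lt_one h]; linarith)]
  congr 1
  rw [div_eq_div_iff hb.ne' (by rw [one_mul, sub_ne_zero, ne_comm, ne_eq, div_eq_one_iff_eq h.ne']; linarith)]
  field_simp
  ring

/-- the numerator of the derivative of the weighted angle sum. -/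
def nn (w0 w1 w2 t y z : ℝ) : ℝ := w1 * (z - t * y) + w2 * (y - t * z) - w0 * (1 - t ^ 2)

theorem sq_lt {t y z : ℝ} (h : 0 < gram t y z) (h1 : t ^ 2 ≤ 1) : 0 < 1 - t ^ 2 := by
  refine lt_of_le_of_ne (by linarith) fun e => ?_
  rw [gram_eq, ← e] at h
  nlinarith [sq_nonneg (z - t * y)]

theorem lin_deriv (w0 w1 w2 n : ℝ) {t y z : ℝ} (h : 0 < gram t y z) (h1 : 0 < 1 - t ^ 2) :
    HasDerivAt (fun s => lin w0 w1 w2 n 0 0 s y z)
      (nn w0 w1 w2 t y z / ((1 - t ^ 2) * √(gram t y z)) + n) t := by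
  have a1 : gram y z t = gram t y z := gram_rot ..
  have a2 : gram t z y = gram t y z := by unfold gram; ring
  have s := sqrt_pos.2 h
  refine (((((((hasDeriv_angR (a1 ▸ h)).const_mul w0).fun_add
    ((hasDeriv_angP (a2 ▸ h) h1.ne').const_mul w1)).fun_add
    ((hasDeriv_angP h h1.ne').const_mul w2)).fun_add
    ((hasDerivAt_id' t).const_mul n)).add_const (0 * y)).add_const (0 * z)).congr_deriv ?_
  unfold angR angP nn
  rw [a1, a2]
  field_simp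
  ring

theorem gram_seg {l u t y z : ℝ} (ht : t ∈ Icc l u) (hl : 0 < gram l y z) (hu : 0 < gram u y z) :
    0 < gram t y z := by
  unfold gram at *
  rcases le_total (2 * y * z) (t + l) with h | h
  · rcases le_total (2 * y * z) (t + u) with k | k
    · nlinarith [mul_nonneg (sub_nonneg.2 ht.2) (sub_nonneg.2 k)]
    · nlinarith [mul_nonneg (sub_nonneg.2 ht.2) (sub_nonneg.2 h), ht.1, ht.2]
  · nlinarith [mul_nonneg (sub_nonneg.2 ht.1) (sub_nonneg.2 h)]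

/-- what is checked at a corner of a box. -/
structure Ok (c w0 w1 w2 x y z : ℝ) : Prop where
  g : 0 < gram x y z
  a : nn w0 w1 w2 (3 / 4) y z ≤ 0
  b : nn w1 w0 w2 (3 / 4) x z ≤ 0
  d : nn w2 w0 w1 (3 / 4) x y ≤ 0
  v : c ≤ lin w0 w1 w2 0 0 0 x y z

theorem Ok.swap {c w0 w1 w2 x y z : ℝ} (h : Ok c w0 w1 w2 x y z) : Ok c w1 w0 w2 y x z :=
  ⟨by rw [gram_swap]; exact h.g, h.b, h.a, by have := h.d; unfold nn at *; linarith,
    lin_a .. ▸ h.v⟩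

theorem Ok.rot {c w0 w1 w2 x y z : ℝ} (h : Ok c w0 w1 w2 x y z) : Ok c w2 w0 w1 z x y :=
  ⟨by rw [← gram_rot]; exact h.g, h.d, by have := h.a; unfold nn at *; linarith,
    by have := h.b; unfold nn at *; linarith, lin_b .. ▸ h.v⟩

theorem aff {l u t a b : ℝ} (ht : t ∈ Icc l u) (hl : a * l + b ≤ 0) (hu : a * u + b ≤ 0) :
    a * t + b ≤ 0 := by
  rcases le_total 0 a with h | h
  · nlinarith [ht.2]
  · nlinarith [ht.1]

theorem Ok.seg {c w0 w1 w2 l u x y z : ℝ} (h0 : 0 ≤ w0) (hx : x ∈ Icc l u) (h1 : -3 / 4 ≤ l)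
    (h2 : u ≤ 3 / 4) (hl : Ok c w0 w1 w2 l y z) (hu : Ok c w0 w1 w2 u y z) :
    Ok c w0 w1 w2 x y z := by
  have hg : ∀ t ∈ Icc l u, 0 < gram t y z ∧ 0 < 1 - t ^ 2 := fun t ht =>
    ⟨gram_seg ht hl.g hu.g, by nlinarith [ht.1, ht.2]⟩
  have cv : ∀ s t, s ≤ t → t ≤ 3 / 4 → nn w0 w1 w2 s y z ≤ 0 → nn w0 w1 w2 t y z ≤ 0 := by
    intro s t k1 k2 k3
    have k4 := hl.a
    by_contra k
    unfold nn at *
    rcases k1.eq_or_lt with rfl | k1
    · exact k k3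
    have := mul_nonneg h0 (mul_nonneg (mul_nonneg (sub_nonneg.2 k1.le) (sub_nonneg.2 k2))
      (by linarith : 0 ≤ 3 / 4 - s))
    nlinarith [mul_nonneg (sub_nonneg.2 k2) (neg_nonneg.2 k3),
      mul_nonneg (sub_nonneg.2 k1.le) (neg_nonneg.2 k4),
      mul_pos (by linarith : 0 < 3 / 4 - s) (not_le.1 k)]
  refine ⟨(hg x hx).1, hl.a, ?_, ?_, ?_⟩
  · have := aff (a := w2 - w0 * (3 / 4)) (b := w0 * z - w2 * (3 / 4 * z) - w1 * (1 - (3 / 4) ^ 2)) hx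
      (by have := hl.b; unfold nn at this; linarith) (by have := hu.b; unfold nn at this; linarith)
    unfold nn
    linarith
  · have := aff (a := w1 - w0 * (3 / 4)) (b := w0 * y - w1 * (3 / 4 * y) - w2 * (1 - (3 / 4) ^ 2)) hx
      (by have := hl.d; unfold nn at this; linarith) (by have := hu.d; unfold nn at this; linarith)
    unfold nn
    linarith
  rcases le_or_gt (nn w0 w1 w2 x y z) 0 with k | k
  · have m : ∀ t ∈ Icc x u, t ∈ Icc l u := fun t ht => ⟨hx.1.trans ht.1, ht.2⟩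
    have := le_of_deriv hx.2 (fun t ht => (lin_deriv w0 w1 w2 0 (hg t (m t ht)).1
      (hg t (m t ht)).2).fun_neg) fun t ht => by
        have := (hg t (m t ht)).2
        rw [add_zero, neg_nonneg]
        exact div_nonpos_of_nonpos_of_nonneg (cv x t ht.1 (ht.2.trans h2) k) (by positivity)
    linarith [hu.v]
  · have m : ∀ t ∈ Icc l x, t ∈ Icc l u := fun t ht => ⟨ht.1, ht.2.trans hx.2⟩
    have := le_of_deriv hx.1 (fun t ht => lin_deriv w0 w1 w2 0 (hg t (m t ht)).1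
      (hg t (m t ht)).2) fun t ht => by
        have := (hg t (m t ht)).2
        rw [add_zero]
        exact div_nonneg (le_of_not_ge fun e => k.not_ge (cv t x ht.2 (hx.2.trans h2) e))
          (by positivity)
    linarith [hl.v]

/-- The eight corners control the box. -/
theorem Ok.box {c w0 w1 w2 l0 u0 l1 u1 l2 u2 x y z : ℝ} (h0 : 0 ≤ w0) (h1 : 0 ≤ w1) (h2 : 0 ≤ w2)
    (hx : x ∈ Icc l0 u0) (hy : y ∈ Icc l1 u1) (hz : z ∈ Icc l2 u2)
    (a0 : -3 / 4 ≤ l0) (b0 : u0 ≤ 3 / 4) (a1 : -3 / 4 ≤ l1) (b1 : u1 ≤ 3 / 4) (a2 : -3 / 4 ≤ l2)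
    (b2 : u2 ≤ 3 / 4)
    (k0 : Ok c w0 w1 w2 l0 l1 l2) (k1 : Ok c w0 w1 w2 u0 l1 l2) (k2 : Ok c w0 w1 w2 l0 u1 l2)
    (k3 : Ok c w0 w1 w2 u0 u1 l2) (k4 : Ok c w0 w1 w2 l0 l1 u2) (k5 : Ok c w0 w1 w2 u0 l1 u2)
    (k6 : Ok c w0 w1 w2 l0 u1 u2) (k7 : Ok c w0 w1 w2 u0 u1 u2) :
    c ≤ lin w0 w1 w2 0 0 0 x y z := by
  have m0 := Ok.seg h1 hy a1 b1 (Ok.seg h0 hx a0 b0 k0 k1).swap (Ok.seg h0 hx a0 b0 k2 k3).swap
  have m1 := Ok.seg h1 hy a1 b1 (Ok.seg h0 hx a0 b0 k4 k5).swap (Ok.seg h0 hx a0 b0 k6 k7).swap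
  rw [lin_b]
  exact (Ok.seg h2 hz a2 b2 m0.swap.rot m1.swap.rot).v

theorem lin_mono {w0 w1 w2 v0 v1 v2 : ℝ} (x y z : ℝ) (h0 : w0 ≤ v0) (h1 : w1 ≤ v1) (h2 : w2 ≤ v2) :
    lin w0 w1 w2 0 0 0 x y z ≤ lin v0 v1 v2 0 0 0 x y z := by
  unfold lin
  linarith [mul_le_mul_of_nonneg_right h0 (ang_pos y z x).le,
    mul_le_mul_of_nonneg_right h1 (ang_pos x z y).le, mul_le_mul_of_nonneg_right h2 (ang_pos x y z).le]

theorem lin_phi (w0 w1 w2 : ℝ) {x y z : ℝ} (h : 0 < gram x y z) (hx : x < 1) (hy : y < 1)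
    (hz : z < 1) : lin w0 w1 w2 0 0 0 x y z = (w1 + w2) * arctan ((1 + x - y - z) / √(gram x y z)) +
      (w2 + w0) * arctan ((1 + y - z - x) / √(gram x y z)) +
      (w0 + w1) * arctan ((1 + z - x - y) / √(gram x y z)) := by
  have a1 : gram y z x = gram x y z := gram_rot ..
  have a2 : gram x z y = gram x y z := by unfold gram; ring
  have a3 : gram z y x = gram x y z := by unfold gram; ring
  have a4 : gram z x y = gram x y z := by unfold gram; ring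
  unfold lin
  rw [ang_eq_phi (a1 ▸ h) hx, ang_eq_phi (a2 ▸ h) hy, ang_eq_phi h hz, phi_comm z y x,
    phi_comm x z y, phi_comm y x z]
  unfold phi
  rw [a1, a4]
  ring

/-! ### the neighbourhood of the regular triangle -/

theorem gram_near {x y z : ℝ} (hx : x ∈ Icc (0.449 : ℝ) 0.53) (hy : y ∈ Icc (0.449 : ℝ) 0.53)
    (hz : z ∈ Icc (0.449 : ℝ) 0.53) : 0 < gram x y z ∧ 0.674 ≤ √(gram x y z) := by
  have h : 0.455 ≤ gram x y z := by
    obtain ⟨a, b⟩ := hx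
    obtain ⟨c, d⟩ := hy
    obtain ⟨e, f⟩ := hz
    have k1 : gram 0.53 y z ≤ gram x y z := by
      unfold gram
      nlinarith [mul_nonneg (sub_nonneg.2 b) (by nlinarith : 0 ≤ x + 0.53 - 2 * y * z)]
    have k2 : gram 0.53 0.53 z ≤ gram 0.53 y z := by unfold gram; nlinarith
    have k3 : 0.455 ≤ gram 0.53 0.53 z := by unfold gram; nlinarith
    linarith
  exact ⟨by linarith, le_sqrt_of_sq_le (by linarith)⟩

theorem area_anti {x s y z : ℝ} (hx : x ∈ Icc (0.449 : ℝ) s) (hs : s ≤ 0.53)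
    (hy : y ∈ Icc (0.449 : ℝ) 0.53) (hz : z ∈ Icc (0.449 : ℝ) 0.53) :
    lin 1 1 1 0 0 0 s y z ≤ lin 1 1 1 0 0 0 x y z := by
  have m : ∀ t ∈ Icc x s, t ∈ Icc (0.449 : ℝ) 0.53 ∧ 0 < 1 - t ^ 2 := fun t ht =>
    ⟨⟨hx.1.trans ht.1, ht.2.trans hs⟩, by nlinarith [hx.1, ht.1, ht.2]⟩
  have := le_of_deriv hx.2 (fun t ht => (lin_deriv 1 1 1 0 (gram_near (m t ht).1 hy hz).1
    (m t ht).2).fun_neg) fun t ht => by
      have := (m t ht).2
      rw [add_zero, neg_nonneg]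
      refine div_nonpos_of_nonpos_of_nonneg ?_ (by positivity)
      unfold nn
      nlinarith [mul_nonneg (by linarith [(m t ht).1.2] : 0 ≤ 1 - t)
        (by linarith [(m t ht).1.1, hy.2, hz.2] : 0 ≤ 1 + t - y - z)]
  linarith

theorem area_lip {s y z : ℝ} (hs : s ∈ Icc (0.5 : ℝ) 0.53) (hy : y ∈ Icc (0.5 : ℝ) 0.53)
    (hz : z ∈ Icc (0.5 : ℝ) 0.53) :
    lin 1 1 1 0 0 0 0.5 y z - 0.52 * (s - 0.5) ≤ lin 1 1 1 0 0 0 s y z := by
  have w : ∀ {t : ℝ}, t ∈ Icc (0.5 : ℝ) 0.53 → t ∈ Icc (0.449 : ℝ) 0.53 := fun h =>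
    ⟨by linarith [h.1], h.2⟩
  have m : ∀ t ∈ Icc (0.5 : ℝ) s, t ∈ Icc (0.5 : ℝ) 0.53 ∧ 0 < 1 - t ^ 2 := fun t ht =>
    ⟨⟨ht.1, ht.2.trans hs.2⟩, by nlinarith [hs.2, ht.1, ht.2]⟩
  have := le_of_deriv hs.1 (fun t ht => lin_deriv 1 1 1 0.52
    (gram_near (w (m t ht).1) (w hy) (w hz)).1 (m t ht).2) fun t ht => by
      have k := (m t ht).2
      have g := (gram_near (w (m t ht).1) (w hy) (w hz)).2
      have g0 : 0 < √(gram t y z) := by linarith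
      rw [← neg_le_iff_add_nonneg, le_div_iff₀ (by positivity)]
      unfold nn
      have t1 := (m t ht).1.1
      have t2 := (m t ht).1.2
      nlinarith [mul_le_mul_of_nonneg_left g k.le, mul_nonneg (by linarith : 0 ≤ 1 - t)
        (by linarith [hy.1, hz.1] : 0 ≤ 0.35 * (1 + t) - (1 + t - y - z))]
  unfold lin at this ⊢
  linarith

theorem ang_near {x y z : ℝ} (hx : x ∈ Icc (0.449 : ℝ) 0.53) (hy : y ∈ Icc (0.449 : ℝ) 0.53)
    (hz : z ∈ Icc (0.449 : ℝ) 0.53) : 1 ≤ ang x y z := by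
  have g := (gram_near hx hy hz).2
  have h1 : (z - x * y) / √(gram x y z) ≤ 1 / 2 := by
    rw [div_le_iff₀ (by linarith)]
    nlinarith [hx.1, hy.1, hz.2, mul_nonneg (sub_nonneg.2 hx.1) (sub_nonneg.2 hy.1)]
  have h2 := arctan_strictMono.monotone h1
  have h3 := atan_le (x := 1 / 2) (by norm_num)
  unfold ang
  linarith [pi_gt_three]

theorem area_reg : lin 1 1 1 0 0 0 0.5 0.5 0.5 = 3 * th0 := by
  have : ang 0.5 0.5 0.5 = th0 := by
    unfold ang th0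
    rw [Const.sq_mul (1 / 2) (gram 0.5 0.5 0.5) (by norm_num) (by norm_num [gram]), Const.s8]
    congr 2
    have := Const.s2_pos
    field_simp
    norm_num
  unfold lin
  rw [this]
  ring

/-- The inequality near the regular triangle. -/
theorem near {d0 d1 d2 w0 w1 w2 x y z : ℝ} (a0 : d0 ∈ Icc (0 : ℝ) 0.03) (a1 : d1 ∈ Icc (0 : ℝ) 0.03)
    (a2 : d2 ∈ Icc (0 : ℝ) 0.03) (b0 : 1 + 0.52 * d0 ≤ w0) (b1 : 1 + 0.52 * d1 ≤ w1)
    (b2 : 1 + 0.52 * d2 ≤ w2) (hx : x ∈ Icc 0.449 (0.5 + (d1 + d2) / 2))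
    (hy : y ∈ Icc 0.449 (0.5 + (d2 + d0) / 2)) (hz : z ∈ Icc 0.449 (0.5 + (d0 + d1) / 2)) :
    3 * th0 ≤ lin w0 w1 w2 0 0 0 x y z := by
  have w : ∀ {t : ℝ}, t ∈ Icc (0.5 : ℝ) 0.53 → t ∈ Icc (0.449 : ℝ) 0.53 := fun h =>
    ⟨by linarith [h.1], h.2⟩
  have e : ∀ {a b : ℝ}, a ∈ Icc (0 : ℝ) 0.03 → b ∈ Icc (0 : ℝ) 0.03 →
      0.5 + (a + b) / 2 ∈ Icc (0.5 : ℝ) 0.53 := fun h k =>
    ⟨by linarith [h.1, k.1], by linarith [h.2, k.2]⟩
  have c0 := e a1 a2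
  have c1 := e a2 a0
  have c2 := e a0 a1
  have hf : (0.5 : ℝ) ∈ Icc (0.5 : ℝ) 0.53 := by norm_num
  have mx : x ∈ Icc (0.449 : ℝ) 0.53 := ⟨hx.1, hx.2.trans c0.2⟩
  have my : y ∈ Icc (0.449 : ℝ) 0.53 := ⟨hy.1, hy.2.trans c1.2⟩
  have mz : z ∈ Icc (0.449 : ℝ) 0.53 := ⟨hz.1, hz.2.trans c2.2⟩
  have s0 := area_anti hx c0.2 my mz
  have s1 := area_anti hy c1.2 (w c0) mz
  have s2 := area_anti hz c2.2 (w c0) (w c1)
  have r0 := area_lip c0 c1 c2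
  have r1 := area_lip c1 hf c2
  have r2 := area_lip c2 hf hf
  have pa : ∀ a b c : ℝ, lin 1 1 1 0 0 0 a b c = lin 1 1 1 0 0 0 b a c := fun a b c => lin_a ..
  have pb : ∀ a b c : ℝ, lin 1 1 1 0 0 0 a b c = lin 1 1 1 0 0 0 c a b := fun a b c => lin_b ..
  rw [← pa _ (0.5 + (d2 + d0) / 2), ← pa _ y] at s1
  rw [← pb _ _ (0.5 + (d0 + d1) / 2), ← pb _ _ z] at s2
  rw [← pa _ (0.5 + (d2 + d0) / 2)] at r1
  rw [← pb _ _ (0.5 + (d0 + d1) / 2), area_reg] at r2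
  refine le_trans ?_ (lin_mono x y z b0 b1 b2)
  have q0 := mul_le_mul_of_nonneg_left (ang_near my mz mx) a0.1
  have q1 := mul_le_mul_of_nonneg_left (ang_near mx mz my) a1.1
  have q2 := mul_le_mul_of_nonneg_left (ang_near mx my mz) a2.1
  have : lin (1 + 0.52 * d0) (1 + 0.52 * d1) (1 + 0.52 * d2) 0 0 0 x y z = lin 1 1 1 0 0 0 x y z +
      0.52 * (d0 * ang y z x + d1 * ang x z y + d2 * ang x y z) := by unfold lin; ring
  linarith

end Pool.Agent.Lib.MP_f3b2fd_co.KT
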