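import Pool.Agent.Lib.MP_f3b2fd_co.KEP.B.Tau.Chk

/-! The test for a box and the subdivision. -/

set_option autoImplicit false

namespace Pool.Agent.Lib.MP_f3b2fd_co.KT

open Real Set KEP KA KN

noncomputable section

def mn (a b : ℕ) : ℕ := a.sub (a.sub b)

def pl (H : ℕ) : ℕ :=
  frc ((((H.mul H).mul (H.mul H)).mul (H.mul H)).div 1267650600228229401496703205376) fun T =>
    (mn (mn (mn ((T.mul 898946).sub 942613875497) ((T.mul 667576).sub 651612792336))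
      (mn ((T.mul 432600).sub 270741075699) ((T.mul 240633).add 152637036624)))
      (mn ((T.mul 97989).add 596935078851) 1099511627776)).div 1048576

def pm (P H K : ℕ) : ℕ :=
  P.add ((((((H.mul K).mul 2).add 1099511627776).sub ((H.mul H).add (K.mul K))).mul 1048576).div
    ((H.mul K).mul 2) |>.sub P)

def rc (P Q R U W : ℕ) : Bool :=
  ((((U.add W).mul 628097024).ble ((P.mul 628097024).add ((Q.mul R).mul 1024)) &&
    ((U.mul 628097024).add ((P.mul W).mul 1024)).ble ((P.add R).mul 628097024)) &&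
    ((W.mul 628097024).add ((P.mul U).mul 1024)).ble ((P.add U).mul 628097024)) &&
    ((((P.mul U).add (U.mul W)).add (W.mul P)).mul 1256194048).ble
      ((((P.mul U).mul W).mul 2048).add ((((P.mul P).add (U.mul U)).add (W.mul W)).mul 628097024))

def vv (A B C m0 m1 m2 u0 u1 u2 : ℕ) : Bool :=
  ((Nat.ble 262144 m0 && Nat.ble 262144 m1) && Nat.ble 262144 m2) &&
    ((u0.ble 1835008 && u1.ble 1835008) && u2.ble 1835008) &&
    ((cor A B C u0 u1 u2 && cor A B C m0 u1 u2) && (cor A B C u0 m1 u2 && cor A B C m0 m1 u2)) &&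
    ((cor A B C u0 u1 m2 && cor A B C m0 u1 m2) && (cor A B C u0 m1 m2 && cor A B C m0 m1 m2))

def leaf (B0 B1 B2 ps a0 b0 a1 b1 a2 b2 l0 u0 l1 u1 l2 u2 : ℕ) : Bool :=
  ((b0.ble 1363148 && b1.ble 1363148) && b2.ble 1363148) &&
  frc (pm l0 b1 b2) fun m0 => frc (pm l1 b2 b0) fun m1 => frc (pm l2 b0 b1) fun m2 =>
    ((u0.succ.ble m0 || u1.succ.ble m1) || u2.succ.ble m2) ||
    ((rc m0 m1 m2 u1 u2 || rc m1 m2 m0 u2 u0) || rc m2 m0 m1 u0 u1) ||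
    (((b0.ble 1080033 && b1.ble 1080033) && b2.ble 1080033) &&
      ((u0.ble 577765 && u1.ble 577765) && u2.ble 577765) &&
      ((Nat.ble 1048576 B0 && Nat.ble 1048576 B1) && Nat.ble 1048576 B2)) ||
    frc (pl a0) fun y0 => frc (pl a1) fun y1 => frc (pl a2) fun y2 =>
      ps.succ.ble ((y0.add y1).add y2) ||
      frc (B0.add ((y0.mul 21).div 200)) fun A => frc (B1.add ((y1.mul 21).div 200)) fun B =>
        frc (B2.add ((y2.mul 21).div 200)) fun C => vv A B C m0 m1 m2 u0 u1 u2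

def nxt (x : ℕ) (k : ℕ → ℕ) : ℕ := frc x fun d => Bool.rec (k d) 0 (d.beq 0)

/-- the type of a test on boxes that consumes a tree. -/
abbrev Ts := ℕ → ℕ → ℕ → ℕ → ℕ → ℕ → ℕ → ℕ → ℕ → ℕ → ℕ → ℕ → ℕ → ℕ

def step (B0 B1 B2 ps : ℕ) (r : Ts) : Ts := fun a0 b0 a1 b1 a2 b2 l0 u0 l1 u1 l2 u2 D =>
  frc (D.land 7) fun c => frc ((D.land 65528).mul 32) fun m => frc (D.shiftRight 16) fun E =>
    Bool.rec
      (Bool.rec
        (Bool.rec (Bool.rec 0 E (leaf B0 B1 B2 ps a0 b0 a1 b1 a2 b2 l0 u0 l1 u1 l2 u2))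
          (nxt (r a0 b0 a1 b1 a2 b2 l0 u0 l1 u1 l2 m E) (r a0 b0 a1 b1 a2 b2 l0 u0 l1 u1 m u2))
          (c.beq 5))
        (Bool.rec
          (nxt (r a0 b0 a1 b1 a2 b2 l0 u0 l1 m l2 u2 E) (r a0 b0 a1 b1 a2 b2 l0 u0 m u1 l2 u2))
          (nxt (r a0 b0 a1 b1 a2 b2 l0 m l1 u1 l2 u2 E) (r a0 b0 a1 b1 a2 b2 m u0 l1 u1 l2 u2))
          (c.beq 3))
        (c.ble 4))
      (Bool.rec
        (nxt (r a0 b0 a1 b1 a2 m l0 u0 l1 u1 l2 u2 E) (r a0 b0 a1 b1 m b2 l0 u0 l1 u1 l2 u2))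
        (Bool.rec
          (nxt (r a0 b0 a1 m a2 b2 l0 u0 l1 u1 l2 u2 E) (r a0 b0 m b1 a2 b2 l0 u0 l1 u1 l2 u2))
          (nxt (r a0 m a1 b1 a2 b2 l0 u0 l1 u1 l2 u2 E) (r m b0 a1 b1 a2 b2 l0 u0 l1 u1 l2 u2))
          (c.beq 0))
        (c.ble 1))
      (c.ble 2)

def run (B0 B1 B2 ps f : ℕ) : Ts :=
  Nat.rec (motive := fun _ => Ts) (fun _ _ _ _ _ _ _ _ _ _ _ _ _ => 0)
    (fun _ r => step B0 B1 B2 ps r) f

end

theorem mn_eq (a b : ℕ) : mn a b = min a b := by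
  simp only [mn, sub_eq']
  omega

theorem pl_le {H : ℕ} {h : ℝ} (h1 : 1 ≤ h) (h2 : h ≤ 129 / 100) (k : (H : ℝ) ≤ 1048576 * h) :
    (pl H : ℝ) ≤ 1048576 * (1 - ff h) := by
  have y0 : 0 ≤ 1 - ff h := by linarith [ff_slope (hs := h) (by linarith) h h1 le_rfl]
  simp only [pl, frc_eq, mn_eq, div_eq', add_eq', mul_eq', sub_eq']
  generalize hT : H * H * (H * H) * (H * H) / _ = T
  have t : (T : ℝ) * 64 ≤ 1048576 * (4 * h ^ 2) ^ 3 := by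
    have a : (T : ℝ) ≤ ((H * H * (H * H) * (H * H) : ℕ) : ℝ) /
      (1267650600228229401496703205376 : ℕ) := hT ▸ Nat.cast_div_le
    have b := pow_le_pow_left₀ (by positivity) k 6
    push_cast at a
    linarith
  have t0 : 0 ≤ (4 * h ^ 2) ^ 3 := by positivity
  refine Nat.cast_div_le.trans ?_
  rw [div_le_iff₀ (by positivity)]
  simp only [Nat.cast_min, min_le_iff]
  unfold ff at *
  generalize 4 * h ^ 2 = x at *
  have s : ∀ a b : ℕ, (a : ℝ) - b ≤ 1048576 * (1 - FF x) * (1048576 : ℕ) →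
    ((a - b : ℕ) : ℝ) ≤ 1048576 * (1 - FF x) * (1048576 : ℕ) := fun a b => sub_le' (by positivity)
  rcases FF_cases x with c | ⟨d, c⟩ | ⟨d, c⟩ | ⟨d, c⟩ | ⟨d, c⟩ | d
  · refine .inl (.inl (.inl (s _ _ ?_)))
    rw [FF1 c, KN.lin]; push_cast; linarith
  · refine .inl (.inl (.inr (s _ _ ?_)))
    rw [FF2 d c, KN.lin]; push_cast; linarith
  · refine .inl (.inr (.inl (s _ _ ?_)))
    rw [FF3 d c, KN.lin]; push_cast; linarith
  · refine .inl (.inr (.inr ?_))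
    rw [FF4 d c, KN.lin]; push_cast; linarith
  · refine .inr (.inl ?_)
    rw [FF5 d c, KN.lin]; push_cast; linarith
  · refine .inr (.inr ?_)
    rw [FF6 d]; push_cast; linarith

theorem sep_step {h k H p : ℝ} (h1 : 1 ≤ h) (k2 : k ^ 2 ≤ 2) (hH : h ≤ H)
    (s : 2 * h * k * (1 - p) ≤ h ^ 2 + k ^ 2 - 1) : 2 * H * k * (1 - p) ≤ H ^ 2 + k ^ 2 - 1 := by
  refine le_of_mul_le_mul_left ?_ (by linarith : 0 < h)
  nlinarith [mul_le_mul_of_nonneg_left s (by linarith : 0 ≤ H), mul_nonneg (sub_nonneg.2 hH)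
    (by nlinarith : 0 ≤ h * H + 1 - k ^ 2)]

theorem pm_le {P H K : ℕ} {h k p : ℝ} (h1 : 1 ≤ h) (k1 : 1 ≤ k) (hH : 1048576 * h ≤ H)
    (hK : 1048576 * k ≤ K) (a : H ≤ 1363148) (b : K ≤ 1363148) (hP : (P : ℝ) ≤ 1048576 * p)
    (s : 2 * h * k * (1 - p) ≤ h ^ 2 + k ^ 2 - 1) : (pm P H K : ℝ) ≤ 1048576 * p := by
  have a' : (H : ℝ) ≤ 1363148 := by exact_mod_cast a
  have b' : (K : ℝ) ≤ 1363148 := by exact_mod_cast b
  have s1 := sep_step (H := H / 1048576) h1 (by nlinarith) (by linarith) s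
  have s2 := sep_step (h := k) (k := H / 1048576) (H := K / 1048576) (p := p) k1 (by nlinarith)
    (by linarith) (by linarith)
  have p0 : 0 ≤ 1048576 * p := le_trans (by positivity) hP
  simp only [pm, div_eq', add_eq', mul_eq', sub_eq']
  rw [Nat.cast_add, ← le_sub_iff_add_le']
  refine sub_le' (by linarith) (sub_le_sub_right (Nat.cast_div_le.trans ?_) _)
  refine div_le_of_le_mul₀ (by positivity) p0 ?_
  rw [Nat.sub_mul]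
  refine sub_le' (by positivity) ?_
  push_cast
  linarith

theorem rc_ok {P Q R U W : ℕ} {p q r : ℝ} (h : rc P Q R U W = true) (hp : P ≤ p) (q1 : Q ≤ q)
    (q2 : q ≤ U) (r1 : R ≤ r) (r2 : r ≤ W) :
    628097024 * (2 * (p * q + q * r + r * p) - p ^ 2 - q ^ 2 - r ^ 2) ≤ 2048 * (p * q * r) := by
  simp only [rc, Bool.and_eq_true, Nat.ble_eq, add_eq', mul_eq', ← Nat.cast_le (α := ℝ)] at h
  push_cast at h
  obtain ⟨⟨⟨c1, c2⟩, c3⟩, c4⟩ := h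
  have e1 : (Q : ℝ) * R ≤ q * r := mul_le_mul q1 r1 (by positivity) (le_trans (by positivity) q1)
  have e2 : (P : ℝ) * r ≤ P * W := mul_le_mul_of_nonneg_left r2 (by positivity)
  have f1 := mul_nonneg (sub_nonneg.2 hp)
    (by linarith : 0 ≤ 2048 * (q * r) - 628097024 * (2 * q + 2 * r - p - P))
  have f2 := mul_nonneg (sub_nonneg.2 q2)
    (by linarith : 0 ≤ 628097024 * (2 * P + 2 * r - q - U) - 2048 * (P * r))
  have f3 := mul_nonneg (sub_nonneg.2 r2)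
    (by linarith : 0 ≤ 628097024 * (2 * P + 2 * U - r - W) - 2048 * (P * U))
  linarith

theorem vv_ok {A B C m0 m1 m2 u0 u1 u2 : ℕ} {p q r : ℝ} (h : vv A B C m0 m1 m2 u0 u1 u2 = true)
    (a0 : m0 ≤ 1048576 * p) (b0 : 1048576 * p ≤ u0) (a1 : m1 ≤ 1048576 * q)
    (b1 : 1048576 * q ≤ u1) (a2 : m2 ≤ 1048576 * r) (b2 : 1048576 * r ≤ u2) :
    3 * th0 ≤ KEP.lin (A / 1048576) (B / 1048576) (C / 1048576) 0 0 0 (1 - p) (1 - q) (1 - r) := by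
  simp only [vv, Bool.and_eq_true, Nat.ble_eq] at h
  obtain ⟨⟨⟨⟨⟨c0, c1⟩, c2⟩, ⟨d0, d1⟩, d2⟩, ⟨k0, k1⟩, k2, k3⟩, ⟨k4, k5⟩, k6, k7⟩ := h
  have f : ∀ {m u : ℕ} {p : ℝ}, 262144 ≤ m → u ≤ 1835008 → m ≤ 1048576 * p → 1048576 * p ≤ u →
      (0 < m ∧ 0 < u) ∧ 1 - p ∈ Icc (xr u) (xr m) ∧ -3 / 4 ≤ xr u ∧ xr m ≤ 3 / 4 := by
    intro m u p c d a b
    have c' : (262144 : ℝ) ≤ m := by exact_mod_cast c
    have d' : (u : ℝ) ≤ 1835008 := by exact_mod_cast d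
    have e : (0 : ℝ) < u := by linarith
    unfold xr
    exact ⟨⟨by omega, by exact_mod_cast e⟩, ⟨by linarith, by linarith⟩, by linarith, by linarith⟩
  obtain ⟨⟨e0, f0⟩, g0, i0, j0⟩ := f c0 d0 a0 b0
  obtain ⟨⟨e1, f1⟩, g1, i1, j1⟩ := f c1 d1 a1 b1
  obtain ⟨⟨e2, f2⟩, g2, i2, j2⟩ := f c2 d2 a2 b2
  exact Ok.box (by positivity) (by positivity) (by positivity) g0 g1 g2 i0 j0 i1 j1 i2 j2
    (cor_ok f0 f1 f2 k0) (cor_ok e0 f1 f2 k1) (cor_ok f0 e1 f2 k2) (cor_ok e0 e1 f2 k3)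
    (cor_ok f0 f1 e2 k4) (cor_ok e0 f1 e2 k5) (cor_ok f0 e1 e2 k6) (cor_ok e0 e1 e2 k7)

theorem y_near {h : ℝ} (h1 : 1 ≤ h) (h2 : h ≤ 1.03) : 5 * (h - 1) ≤ 1 - ff h := by
  have a : 1 + 6 * (h - 1) ≤ (1 + (h - 1)) ^ 6 := by
    exact_mod_cast one_add_mul_le_pow (a := h - 1) (by linarith) 6
  rw [ff, FF1 (by nlinarith), KN.lin]
  nlinarith

theorem sep_near {h k p : ℝ} (h1 : 1 ≤ h) (k1 : 1 ≤ k)
    (s : 2 * h * k * (1 - p) ≤ h ^ 2 + k ^ 2 - 1) : 1 - p ≤ 0.5 + (h - 1 + (k - 1)) / 2 := by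
  refine le_of_mul_le_mul_left ?_ (by positivity : 0 < 2 * h * k)
  nlinarith [mul_nonneg (mul_nonneg (sub_nonneg.2 h1) (sub_nonneg.2 k1)) (by linarith : 0 ≤ h + k + 1)]

/-- heights and defects of the cosines of a triangle. -/
structure Adm (h0 h1 h2 p0 p1 p2 : ℝ) : Prop where
  l0 : 1 ≤ h0
  l1 : 1 ≤ h1
  l2 : 1 ≤ h2
  u0 : h0 ≤ 129 / 100
  u1 : h1 ≤ 129 / 100
  u2 : h2 ≤ 129 / 100
  s0 : 2 * h1 * h2 * (1 - p0) ≤ h1 ^ 2 + h2 ^ 2 - 1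
  s1 : 2 * h2 * h0 * (1 - p1) ≤ h2 ^ 2 + h0 ^ 2 - 1
  s2 : 2 * h0 * h1 * (1 - p2) ≤ h0 ^ 2 + h1 ^ 2 - 1
  r : 2048 * (p0 * p1 * p2) <
    599 * (2 * (p0 * p1 + p1 * p2 + p2 * p0) - p0 ^ 2 - p1 ^ 2 - p2 ^ 2)

/-- `x` lies in the scaled interval. -/
def In (l u : ℕ) (x : ℝ) : Prop := l ≤ 1048576 * x ∧ 1048576 * x ≤ u

/-- the inequality. -/
def Goal (B0 B1 B2 : ℕ) (h0 h1 h2 p0 p1 p2 : ℝ) : Prop :=
  3 * th0 ≤ KEP.lin (B0 / 1048576 + 21 / 200 * (1 - ff h0)) (B1 / 1048576 + 21 / 200 * (1 - ff h1))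
    (B2 / 1048576 + 21 / 200 * (1 - ff h2)) 0 0 0 (1 - p0) (1 - p1) (1 - p2)

variable {B0 B1 B2 ps : ℕ} {h0 h1 h2 p0 p1 p2 : ℝ} (A : Adm h0 h1 h2 p0 p1 p2)
  (hp : 1048576 * (1 - ff h0 + (1 - ff h1) + (1 - ff h2)) ≤ ps)

include A hp

theorem leaf_ok {a0 b0 a1 b1 a2 b2 l0 u0 l1 u1 l2 u2 : ℕ}
    (h : leaf B0 B1 B2 ps a0 b0 a1 b1 a2 b2 l0 u0 l1 u1 l2 u2 = true) (i0 : In a0 b0 h0)
    (i1 : In a1 b1 h1) (i2 : In a2 b2 h2) (j0 : In l0 u0 p0) (j1 : In l1 u1 p1) (j2 : In l2 u2 p2) :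
    Goal B0 B1 B2 h0 h1 h2 p0 p1 p2 := by
  simp only [leaf, frc_eq, Bool.and_eq_true, Bool.or_eq_true, Nat.ble_eq] at h
  obtain ⟨⟨⟨c0, c1⟩, c2⟩, h⟩ := h
  have m0 := pm_le A.l1 A.l2 i1.2 i2.2 c1 c2 j0.1 A.s0
  have m1 := pm_le A.l2 A.l0 i2.2 i0.2 c2 c0 j1.1 A.s1
  have m2 := pm_le A.l0 A.l1 i0.2 i1.2 c0 c1 j2.1 A.s2
  have y0 := pl_le A.l0 A.u0 i0.1
  have y1 := pl_le A.l1 A.u1 i1.1
  have y2 := pl_le A.l2 A.u2 i2.1
  have lt : ∀ {a b : ℕ}, a.succ ≤ b → (a : ℝ) < b := fun h => by exact_mod_cast h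
  have r := A.r
  rcases h with ((((h | h) | h) | (h | h) | h) | ⟨⟨⟨⟨d0, d1⟩, d2⟩, ⟨e0, e1⟩, e2⟩, ⟨f0, f1⟩, f2⟩) | h | h
  · linarith [lt h, j0.2]
  · linarith [lt h, j1.2]
  · linarith [lt h, j2.2]
  · linarith [rc_ok h m0 m1 j1.2 m2 j2.2]
  · linarith [rc_ok h m1 m2 j2.2 m0 j0.2]
  · linarith [rc_ok h m2 m0 j0.2 m1 j1.2]
  · have g : ∀ {a b B : ℕ} {h : ℝ}, 1 ≤ h → In a b h → b ≤ 1080033 → 1048576 ≤ B →
        h - 1 ∈ Icc (0 : ℝ) 0.03 ∧ 1 + 0.52 * (h - 1) ≤ B / 1048576 + 21 / 200 * (1 - ff h) := by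
      intro a b B h k i d f
      have d' : (b : ℝ) ≤ 1080033 := by exact_mod_cast d
      have f' : (1048576 : ℝ) ≤ B := by exact_mod_cast f
      have := y_near k (by linarith [i.2])
      exact ⟨⟨by linarith, by linarith [i.2]⟩, by linarith⟩
    have e : ∀ {a b : ℕ} {p : ℝ}, In a b p → b ≤ 577765 → 0.449 ≤ 1 - p := by
      intro a b p i d
      have d' : (b : ℝ) ≤ 577765 := by exact_mod_cast d
      linarith [i.2]
    exact near (g A.l0 i0 d0 f0).1 (g A.l1 i1 d1 f1).1 (g A.l2 i2 d2 f2).1 (g A.l0 i0 d0 f0).2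
      (g A.l1 i1 d1 f1).2 (g A.l2 i2 d2 f2).2 ⟨e j0 e0, sep_near A.l1 A.l2 A.s0⟩
      ⟨e j1 e1, sep_near A.l2 A.l0 A.s1⟩ ⟨e j2 e2, sep_near A.l0 A.l1 A.s2⟩
  · have := lt h
    simp only [add_eq', Nat.cast_add] at this
    linarith
  · have w : ∀ {B Y : ℕ} {y : ℝ}, Y ≤ 1048576 * y →
        (B.add ((Y.mul 21).div 200) : ℕ) / 1048576 ≤ B / 1048576 + 21 / 200 * y := by
      intro B Y y k
      have : ((Y * 21 / 200 : ℕ) : ℝ) ≤ (Y * 21 : ℕ) / (200 : ℕ) := Nat.cast_div_le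
      simp only [add_eq', mul_eq', div_eq', Nat.cast_add]
      push_cast at this
      linarith
    exact (vv_ok h m0 j0.2 m1 j1.2 m2 j2.2).trans (lin_mono _ _ _ (w y0) (w y1) (w y2))

omit A hp in
theorem nxt_ok {x : ℕ} {k : ℕ → ℕ} (h : nxt x k ≠ 0) : x ≠ 0 ∧ k x ≠ 0 := by
  rw [nxt, frc_eq] at h
  cases x
  · exact absurd rfl h
  · exact ⟨Nat.succ_ne_zero _, h⟩

omit A hp in
theorem In.cut {l u : ℕ} {x : ℝ} (h : In l u x) (m : ℕ) : In l m x ∨ In m u x :=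
  (le_total (1048576 * x) m).imp (fun k => ⟨h.1, k⟩) fun k => ⟨k, h.2⟩

theorem run_ok (f : ℕ) : ∀ a0 b0 a1 b1 a2 b2 l0 u0 l1 u1 l2 u2 D,
    run B0 B1 B2 ps f a0 b0 a1 b1 a2 b2 l0 u0 l1 u1 l2 u2 D ≠ 0 → In a0 b0 h0 → In a1 b1 h1 →
    In a2 b2 h2 → In l0 u0 p0 → In l1 u1 p1 → In l2 u2 p2 → Goal B0 B1 B2 h0 h1 h2 p0 p1 p2 := by
  induction f with
  | zero => intro _ _ _ _ _ _ _ _ _ _ _ _ _ h; exact absurd rfl h
  | succ f ih =>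
    intro a0 b0 a1 b1 a2 b2 l0 u0 l1 u1 l2 u2 D h i0 i1 i2 j0 j1 j2
    have e : run B0 B1 B2 ps (f + 1) = step B0 B1 B2 ps (run B0 B1 B2 ps f) := rfl
    rw [e] at h
    generalize run B0 B1 B2 ps f = r at h ih
    simp only [step, frc_eq] at h
    generalize D.land 7 = c, (D.land 65528).mul 32 = m, D.shiftRight 16 = E at h
    revert h
    cases c.ble 2
    · cases c.ble 4
      · cases c.beq 5
        · cases k : leaf B0 B1 B2 ps a0 b0 a1 b1 a2 b2 l0 u0 l1 u1 l2 u2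
          · exact fun h => absurd rfl h
          · exact fun _ => leaf_ok A hp k i0 i1 i2 j0 j1 j2
        · exact fun h => (j2.cut m).elim (ih _ _ _ _ _ _ _ _ _ _ _ _ _ (nxt_ok h).1 i0 i1 i2 j0 j1)
            (ih _ _ _ _ _ _ _ _ _ _ _ _ _ (nxt_ok h).2 i0 i1 i2 j0 j1)
      · cases c.beq 3
        · exact fun h => (j1.cut m).elim
            (fun k => ih _ _ _ _ _ _ _ _ _ _ _ _ _ (nxt_ok h).1 i0 i1 i2 j0 k j2)
            fun k => ih _ _ _ _ _ _ _ _ _ _ _ _ _ (nxt_ok h).2 i0 i1 i2 j0 k j2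
        · exact fun h => (j0.cut m).elim
            (fun k => ih _ _ _ _ _ _ _ _ _ _ _ _ _ (nxt_ok h).1 i0 i1 i2 k j1 j2)
            fun k => ih _ _ _ _ _ _ _ _ _ _ _ _ _ (nxt_ok h).2 i0 i1 i2 k j1 j2
    · cases c.ble 1
      · exact fun h => (i2.cut m).elim
          (fun k => ih _ _ _ _ _ _ _ _ _ _ _ _ _ (nxt_ok h).1 i0 i1 k j0 j1 j2)
          fun k => ih _ _ _ _ _ _ _ _ _ _ _ _ _ (nxt_ok h).2 i0 i1 k j0 j1 j2
      · cases c.beq 0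
        · exact fun h => (i1.cut m).elim
            (fun k => ih _ _ _ _ _ _ _ _ _ _ _ _ _ (nxt_ok h).1 i0 k i2 j0 j1 j2)
            fun k => ih _ _ _ _ _ _ _ _ _ _ _ _ _ (nxt_ok h).2 i0 k i2 j0 j1 j2
        · exact fun h => (i0.cut m).elim
            (fun k => ih _ _ _ _ _ _ _ _ _ _ _ _ _ (nxt_ok h).1 k i1 i2 j0 j1 j2)
            fun k => ih _ _ _ _ _ _ _ _ _ _ _ _ _ (nxt_ok h).2 k i1 i2 j0 j1 j2

end Pool.Agent.Lib.MP_f3b2fd_co.KT
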